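import Pool.Agent.H72.BF.Targets2

set_option autoImplicit false

open Finset

namespace Pool.Agent.H69.BF

open Pool.Agent.H72.BF

section mapL

variable {K F σ : Type} [Field K] [Field F] [Algebra K F]

/-- apply a linear functional to the coefficients -/
noncomputable def mapL (l : F →ₗ[K] K) (f : MvPolynomial σ F) : MvPolynomial σ K :=
  ∑ m ∈ f.support, MvPolynomial.monomial m (l (f.coeff m))

lemma coeff_mapL (l : F →ₗ[K] K) (f : MvPolynomial σ F) (m : σ →₀ ℕ) :
    (mapL l f).coeff m = l (f.coeff m) := by
  classical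
  rw [mapL, MvPolynomial.coeff_sum]
  simp only [MvPolynomial.coeff_monomial]
  rw [Finset.sum_ite_eq']
  split_ifs with h
  · rfl
  · rw [MvPolynomial.notMem_support_iff.1 h, map_zero]

lemma support_mapL (l : F →ₗ[K] K) (f : MvPolynomial σ F) : (mapL l f).support ⊆ f.support := by
  intro m hm
  rw [MvPolynomial.mem_support_iff, coeff_mapL] at hm
  rw [MvPolynomial.mem_support_iff]
  intro h
  exact hm (by rw [h, map_zero])

lemma eval_mapL [Fintype σ] (l : F →ₗ[K] K) (f : MvPolynomial σ F) (v : σ → K) :
    MvPolynomial.eval v (mapL l f) = l (MvPolynomial.eval (fun i => algebraMap K F (v i)) f) := by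
  rw [mapL, map_sum, MvPolynomial.eval_eq', map_sum]
  refine Finset.sum_congr rfl fun m _ => ?_
  rw [MvPolynomial.eval_monomial]
  have h : MvPolynomial.coeff m f * ∏ i, (algebraMap K F (v i)) ^ m i =
      (∏ i, v i ^ m i) • MvPolynomial.coeff m f := by
    rw [Algebra.smul_def, mul_comm, map_prod]
    simp only [map_pow]
  rw [h, map_smul, smul_eq_mul, mul_comm]
  congr 1
  rw [Finsupp.prod_fintype]
  intro i; exact pow_zero _

end mapL

lemma support_prod' {R ι σ : Type} [CommRing R] [DecidableEq ι] (s : Finset ι)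
    (f : ι → MvPolynomial σ R) (m : σ →₀ ℕ) (hm : m ∈ (∏ i ∈ s, f i).support) :
    ∃ mm : ι → (σ →₀ ℕ), (∀ i ∈ s, mm i ∈ (f i).support) ∧ m = ∑ i ∈ s, mm i := by
  classical
  induction s using Finset.induction_on generalizing m with
  | empty =>
    refine ⟨fun _ => 0, by simp, ?_⟩
    rw [Finset.prod_empty] at hm
    rw [Finset.sum_empty]
    by_contra h
    rw [MvPolynomial.mem_support_iff, MvPolynomial.coeff_one, if_neg (fun h' => h h'.symm)] at hm
    exact hm rfl
  | insert a s ha ih =>
    rw [Finset.prod_insert ha] at hm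
    have h1 := MvPolynomial.support_mul _ _ hm
    obtain ⟨x, hx, y, hy, hxy⟩ := Finset.mem_add.1 h1
    obtain ⟨mm, h2, h3⟩ := ih y hy
    refine ⟨Function.update mm a x, ?_, ?_⟩
    · intro i hi
      rcases Finset.mem_insert.1 hi with rfl | hi
      · rw [Function.update_self]; exact hx
      · have : i ≠ a := fun h => ha (h ▸ hi)
        rw [Function.update_of_ne this]; exact h2 i hi
    · rw [Finset.sum_insert ha, Function.update_self, ← hxy, h3]
      congr 1
      refine Finset.sum_congr rfl fun i hi => ?_
      have : i ≠ a := fun h => ha (h ▸ hi)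
      rw [Function.update_of_ne this]

theorem hyp : T_HYP := by
  classical
  intro k K F _ _ _ _ _ _ _ A σ _ _ g c hli
  -- the map θ
  obtain ⟨θ, hθ⟩ : ∃ θ : F →ₗ[K] (A → K), ∀ α,
      θ (MvPolynomial.eval (fun i => algebraMap K F (c i)) (g α)) = Pi.single α 1 := by
    obtain ⟨g', hg'⟩ := LinearMap.exists_leftInverse_of_injective
      (Finsupp.linearCombination K fun α => (MvPolynomial.eval fun i => (algebraMap K F) (c i)) (g α))
      (LinearMap.ker_eq_bot.2 hli)
    refine ⟨(Finsupp.linearEquivFunOnFinite K K A).toLinearMap.comp g', fun α => ?_⟩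
    have h1 := LinearMap.congr_fun hg' (Finsupp.single α 1)
    rw [LinearMap.comp_apply, Finsupp.linearCombination_single, one_smul] at h1
    rw [LinearMap.comp_apply, h1]
    simp
  let M : Matrix A A (MvPolynomial σ K) :=
    Matrix.of fun α α' => mapL ((LinearMap.proj α').comp θ) (g α)
  have hM : ∀ v : σ → K, MvPolynomial.eval v M.det =
      (Matrix.of fun α α' => θ (MvPolynomial.eval (fun i => algebraMap K F (v i)) (g α)) α').det := by
    intro v
    rw [RingHom.map_det]
    congr 1
    ext α α'
    simp only [RingHom.mapMatrix_apply, Matrix.map_apply, Matrix.of_apply, M]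
    rw [eval_mapL]
    rfl
  have hD1 : MvPolynomial.eval c M.det = 1 := by
    rw [hM]
    have : (Matrix.of fun α α' => θ (MvPolynomial.eval (fun i => algebraMap K F (c i)) (g α)) α') =
        (1 : Matrix A A K) := by
      ext α α'
      rw [Matrix.of_apply, hθ, Matrix.one_apply, Pi.single_apply]
      simp only [eq_comm]
    rw [this, Matrix.det_one]
  have hD : M.det ≠ 0 := by
    intro h
    rw [h, map_zero] at hD1
    exact zero_ne_one hD1
  obtain ⟨m₀, hm₀⟩ : ∃ m₀, M.det.coeff m₀ ≠ 0 := by
    by_contra h
    push Not at h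
    exact hD (MvPolynomial.ext _ _ (by simpa using h))
  obtain ⟨l, hl⟩ : ∃ l : K →ₗ[k] k, l (M.det.coeff m₀) ≠ 0 := by
    by_contra h
    push Not at h
    exact hm₀ ((Module.forall_dual_apply_eq_zero_iff k _).1 h)
  refine ⟨mapL l M.det, ?_, ?_, ?_⟩
  · intro h
    apply hl
    rw [← coeff_mapL, h, MvPolynomial.coeff_zero]
  · intro m hm
    have h1 := support_mapL l _ hm
    rw [Matrix.det_apply] at h1
    obtain ⟨τ, -, h2⟩ := Finset.mem_biUnion.1 (MvPolynomial.support_sum h1)
    have h3 : m ∈ (∏ i, M (τ i) i).support := by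
      rw [MvPolynomial.mem_support_iff] at h2 ⊢
      intro h4
      apply h2
      rw [MvPolynomial.coeff_smul, h4, smul_zero]
    obtain ⟨mm, h5, h6⟩ := support_prod' _ _ _ h3
    refine ⟨fun α => mm (τ.symm α), ?_, ?_⟩
    · intro α
      have := h5 (τ.symm α) (Finset.mem_univ _)
      rw [Equiv.apply_symm_apply] at this
      exact support_mapL _ _ this
    · rw [h6]
      exact (Equiv.sum_comp τ.symm mm).symm
  · intro v hv
    rw [eval_mapL]
    have h1 : MvPolynomial.eval (fun i => algebraMap k K (v i)) M.det = 0 := by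
      rw [hM]
      have h2 : ∀ α, MvPolynomial.eval (fun i => algebraMap K F (algebraMap k K (v i))) (g α) =
          MvPolynomial.eval (fun i => algebraMap k F (v i)) (g α) := by
        intro α
        congr 2
        ext i
        rw [← IsScalarTower.algebraMap_apply]
      simp only [h2]
      rw [Fintype.not_linearIndependent_iff] at hv
      obtain ⟨w, hw, i, hi⟩ := hv
      rw [← Matrix.exists_vecMul_eq_zero_iff]
      refine ⟨w, fun h => hi (by rw [h]; rfl), ?_⟩
      ext α'
      have h3 := congrArg (fun z => θ z α') hw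
      simp only [map_sum, map_smul, map_zero] at h3
      rw [Finset.sum_apply] at h3
      simpa [Matrix.vecMul, dotProduct] using h3
    rw [h1, map_zero]

end Pool.Agent.H69.BF
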