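import Pool.Agent.H72.BF.Targets2

set_option autoImplicit false

open Finset

namespace Pool.Agent.H69.BF

open Pool.Agent.H72.BF

lemma two_le_hgt (P : MvPolynomial (Fin 2) ℤ) : 2 ≤ hgt P := by
  rw [hgt]
  exact_mod_cast le_max_left _ _

theorem cnt : T_CNT := by
  classical
  intro hPS lam h1 h2 d ε hε
  set A : ℝ := Real.exp (1 / ε) with hA
  have hA1 : 1 ≤ A := Real.one_le_exp (by positivity)
  obtain ⟨C, hC, hPS'⟩ := hPS lam h1 h2 d A hA1
  refine ⟨C, hC, ?_⟩
  have key : ∀ (k : ℕ) (S : Finset (MvPolynomial (Fin 2) ℤ)), S.card = k + 1 →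
      (∀ P ∈ S, Irreducible P ∧ P.totalDegree ≤ d ∧
        hgt P ^ C * ‖MvPolynomial.aeval lam P‖ < 1) →
      (∀ P ∈ S, ∀ Q ∈ S, Associated P Q → P = Q) → ∃ P ∈ S, (2 : ℝ) ^ (A ^ k) ≤ hgt P := by
    intro k
    induction k with
    | zero =>
      intro S hS _ _
      obtain ⟨P, hP⟩ := Finset.card_pos.1 (by omega : 0 < S.card)
      refine ⟨P, hP, ?_⟩
      rw [pow_zero, Real.rpow_one]
      exact two_le_hgt P
    | succ k ih =>
      intro S hS hS1 hS2
      obtain ⟨P, hP, hmax⟩ := S.exists_max_image hgt (Finset.card_pos.1 (by omega))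
      have hcard : (S.erase P).card = k + 1 := by
        rw [Finset.card_erase_of_mem hP, hS]; rfl
      obtain ⟨Q, hQ, hQ2⟩ := ih (S.erase P) hcard
        (fun R hR => hS1 R (Finset.mem_of_mem_erase hR))
        (fun R hR R' hR' => hS2 R (Finset.mem_of_mem_erase hR) R' (Finset.mem_of_mem_erase hR'))
      have hQS := Finset.mem_of_mem_erase hQ
      refine ⟨P, hP, ?_⟩
      have h3 := hPS' Q P (hS1 Q hQS).1 (hS1 P hP).1
        (fun h => (Finset.ne_of_mem_erase hQ) (hS2 Q hQS P hP h))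
        (hS1 Q hQS).2.1 (hS1 P hP).2.1 (hS1 Q hQS).2.2 (hS1 P hP).2.2 (hmax Q hQS)
      refine le_trans ?_ h3
      calc (2 : ℝ) ^ (A ^ (k + 1)) = ((2 : ℝ) ^ (A ^ k)) ^ A := by
            rw [← Real.rpow_mul (by norm_num), pow_succ]
        _ ≤ hgt Q ^ A := Real.rpow_le_rpow (by positivity) hQ2 (by linarith)
  intro H hH S hS1 hS2
  have hlog2 : 0 < Real.log 2 := Real.log_pos (by norm_num)
  have hlogH : Real.log 2 ≤ Real.log H := Real.log_le_log (by norm_num) hH
  have hratio : 1 ≤ Real.log H / Real.log 2 := by rwa [one_le_div hlog2]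
  have hll : 0 ≤ Real.log (Real.log H / Real.log 2) := Real.log_nonneg hratio
  rcases Nat.eq_zero_or_pos S.card with h0 | hpos
  · rw [h0]
    have : 0 ≤ ε * Real.log (Real.log H / Real.log 2) := by positivity
    push_cast
    linarith
  · obtain ⟨k, hk⟩ : ∃ k, S.card = k + 1 := ⟨S.card - 1, by omega⟩
    obtain ⟨P, hP, hP2⟩ := key k S hk (fun P hP => ⟨(hS1 P hP).1, (hS1 P hP).2.1, (hS1 P hP).2.2.2⟩) hS2
    have h4 : (2 : ℝ) ^ (A ^ k) ≤ H := hP2.trans (hS1 P hP).2.2.1
    have h5 : A ^ k * Real.log 2 ≤ Real.log H := by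
      rw [← Real.log_rpow (by norm_num)]
      exact Real.log_le_log (by positivity) h4
    have h6 : A ^ k ≤ Real.log H / Real.log 2 := by rwa [le_div_iff₀ hlog2]
    have h7 : Real.log (A ^ k) ≤ Real.log (Real.log H / Real.log 2) :=
      Real.log_le_log (by positivity) h6
    rw [Real.log_pow, hA, Real.log_exp] at h7
    have h8 : (k : ℝ) ≤ ε * Real.log (Real.log H / Real.log 2) := by
      have := mul_le_mul_of_nonneg_left h7 hε.le
      calc (k : ℝ) = ε * (k * (1 / ε)) := by field_simp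
        _ ≤ _ := this
    rw [hk]
    push_cast
    linarith

end Pool.Agent.H69.BF
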