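import Pool.Agent.H69.BF.QMF1
import Pool.Agent.H29.BF.QPF

open Finset Filter

namespace Pool.Agent.H69.BF

open Pool.Agent.H72.BF

/-- the bad vectors at height `H` and exponent `C` -/
def Bset (M : ℕ) (lam0 : ℂ) (mu : Fin M → ℂ) (C H : ℝ) : Set (Fin M → ℤ) :=
  {v | v ≠ 0 ∧ (∀ i, |(v i : ℝ)| ≤ H) ∧ ∃ Q : MvPolynomial (Fin 2) ℤ, Q ≠ 0 ∧
    Q.totalDegree ≤ 2 ∧ (∀ m : Fin 2 →₀ ℕ, |((Q.coeff m : ℤ) : ℝ)| ≤ H) ∧
    H ^ C * ‖MvPolynomial.aeval ![lam0, ∑ j, (v j : ℂ) * mu j] Q‖ < 1}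

/-- a circuit of `r + 1` bad vectors -/
def Bad (M : ℕ) (lam0 : ℂ) (mu : Fin M → ℂ) (C : ℝ) (r : ℕ) : Prop :=
  ∃ H : ℝ, 2 ≤ H ∧ ∃ (a : Fin r → Fin M → ℤ) (v : Fin M → ℤ), v ∈ Bset M lam0 mu C H ∧
    (∀ i, a i ∈ Bset M lam0 mu C H) ∧ LinearIndependent ℤ a ∧
    (∀ i, LinearIndependent ℤ ![a i, v]) ∧
    ∃ c : Fin r → ℚ, (∀ i, c i ≠ 0) ∧ ∀ k, (v k : ℚ) = ∑ i, c i * a i k

lemma Bset_mono {M : ℕ} {lam0 : ℂ} {mu : Fin M → ℂ} {C C' H : ℝ} (hH : 2 ≤ H) (hC : C' ≤ C) :
    Bset M lam0 mu C H ⊆ Bset M lam0 mu C' H := by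
  rintro v ⟨h1, h2, Q, h3, h4, h5, h6⟩
  refine ⟨h1, h2, Q, h3, h4, h5, lt_of_le_of_lt ?_ h6⟩
  exact mul_le_mul_of_nonneg_right
    (Real.rpow_le_rpow_of_exponent_le (by linarith) hC) (norm_nonneg _)

lemma Bad_mono {M : ℕ} {lam0 : ℂ} {mu : Fin M → ℂ} {C C' : ℝ} {r : ℕ} (hC : C' ≤ C)
    (h : Bad M lam0 mu C r) : Bad M lam0 mu C' r := by
  obtain ⟨H, hH, a, v, h1, h2, h3, h4, h5⟩ := h
  exact ⟨H, hH, a, v, Bset_mono hH hC h1, fun i => Bset_mono hH hC (h2 i), h3, h4, h5⟩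

/-- the combinations of independent elements along two independent vectors -/
lemma pair_indep {K F : Type} [Field K] [Field F] [Algebra K F] {M : ℕ} {t : F} {m : Fin M → F}
    (h : LinearIndependent K (Fin.cons 1 (Fin.cons t m) : Fin (M + 2) → F))
    (w w' : Fin M → K) (hw : LinearIndependent K ![w, w']) :
    LinearIndependent K ![1, t, ∑ i, algebraMap K F (w i) * m i,
      ∑ i, algebraMap K F (w' i) * m i] := by
  rw [Fintype.linearIndependent_iff] at h ⊢
  rw [Fintype.linearIndependent_iff] at hw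
  intro g hg
  have h1 := h (Fin.cons (g 0) (Fin.cons (g 1) (fun i => g 2 * w i + g 3 * w' i))) (by
    rw [Fin.sum_univ_succ, Fin.sum_univ_succ]
    simp only [Fin.cons_zero, Fin.cons_succ, Algebra.smul_def, map_add, map_mul]
    simp only [Fin.sum_univ_four, Matrix.cons_val_zero, Matrix.cons_val_one, Matrix.cons_val,
      Algebra.smul_def, Finset.mul_sum] at hg
    rw [← hg, add_assoc, add_assoc, ← Finset.sum_add_distrib]
    congr 2
    refine Finset.sum_congr rfl fun i _ => ?_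
    ring)
  have e0 := h1 0
  have e1 := h1 (Fin.succ 0)
  have e2 := fun i : Fin M => h1 (Fin.succ (Fin.succ i))
  simp only [Fin.cons_zero, Fin.cons_succ] at e0 e1 e2
  have h2 := hw ![g 2, g 3] (by
    funext i
    simp only [Fin.sum_univ_two, Matrix.cons_val_zero, Matrix.cons_val_one, Pi.add_apply,
      Pi.smul_apply, smul_eq_mul, Pi.zero_apply]
    exact e2 i)
  have e3 := h2 0
  have e4 := h2 1
  simp only [Matrix.cons_val_zero, Matrix.cons_val_one] at e3 e4
  intro i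
  fin_cases i
  · exact e0
  · exact e1
  · exact e3
  · exact e4

lemma qmf_core (hEVP : T_EVP) (hMNR : T_MNR) (hQADM : T_QADM) {H : ℕ → ℝ} (P : Pkg H) (M : ℕ)
    (lam0 : ℂ) (mu : Fin M → ℂ)
    (hli : LinearIndependent P.kb
      (Fin.cons 1 (Fin.cons (P.cst lam0) (fun k => P.cst (mu k))) : Fin (M + 2) → P.F))
    (r : ℕ) (hr : 2 ≤ r) (V : ℕ → Fin (r + 1) → Fin M → ℤ)
    (hV : ∀ j s i, |(V j s i : ℝ)| ≤ H j)
    (hpair : ∀ j s s', s ≠ s' → LinearIndependent ℤ ![V j s, V j s'])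
    (hli2 : ∀ j, LinearIndependent ℤ (fun s : Fin r => V j s.succ))
    (hrel : ∀ j, ∃ c : Fin r → ℚ, (∀ i, c i ≠ 0) ∧
      ∀ k, (V j 0 k : ℚ) = ∑ i, c i * V j (Fin.succ i) k)
    (Q : Fin (r + 1) → ℕ → MvPolynomial (Fin 2) ℤ) (h0 : ∀ s j, Q s j ≠ 0)
    (hd : ∀ s j, (Q s j).totalDegree ≤ 2)
    (hco : ∀ s j, ∀ m : Fin 2 →₀ ℕ, |(((Q s j).coeff m : ℤ) : ℝ)| ≤ H j)
    (hval : ∀ s j, H j ^ ((j : ℝ) + 1) * ‖MvPolynomial.aeval
      ![lam0, ∑ k, (V j s k : ℂ) * mu k] (Q s j)‖ < 1) : False := by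
  classical
  have hB : ∀ s i, P.Bd (fun j => V j s i) := fun s i =>
    P.bd_of_le 1 (fun j => by rw [pow_one]; exact hV j s i)
  let W : Fin (r + 1) → Fin M → P.kk := fun s i =>
    ⟨P.evZ (fun j => V j s i), P.evZ_mem (hB s i)⟩
  let w : Fin (r + 1) → Fin M → P.kb := fun s i => algebraMap P.kk P.kb (W s i)
  have hw : ∀ s i, algebraMap P.kb P.F (w s i) = P.evZ (fun j => V j s i) := fun s i => rfl
  -- pairs stay independent
  have hwp : ∀ s s', s ≠ s' → LinearIndependent P.kb ![w s, w s'] := by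
    intro s s' hss
    have h1 := hMNR H P 2 (Fin M) (fun j x i => (![V j s, V j s'] x i)) (by
      intro x i
      fin_cases x
      · exact hB s i
      · exact hB s' i) (fun j => (li_cast _).1 (hpair j s s' hss))
    rw [Fintype.linearIndependent_iff] at h1 ⊢
    intro g hg
    have h2 := h1 (fun x => algebraMap P.kb P.F (g x)) (by
      funext i
      have h3 := congrArg (algebraMap P.kb P.F) (congrFun hg i)
      simp only [Fin.sum_univ_two, Matrix.cons_val_zero, Matrix.cons_val_one, Pi.add_apply,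
        Pi.smul_apply, smul_eq_mul, Pi.zero_apply, map_add, map_mul, map_zero, hw] at h3 ⊢
      exact h3)
    intro x
    have h4 := h2 x
    exact (map_eq_zero (algebraMap P.kb P.F)).1 h4
  -- the relation
  obtain ⟨D, N, hDb, hNb, hD0, hN0, hDN⟩ := rel_lift P r M (fun j s => V j s.succ)
    (fun j => V j 0) (fun s i => hB s.succ i) (fun i => hB 0 i) hli2 hrel
  let α0 : Fin (r + 1) → P.kk := Fin.cons ⟨P.evZ D, P.evZ_mem hDb⟩
    (fun s => - ⟨P.evZ (N s), P.evZ_mem (hNb s)⟩)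
  let α : Fin (r + 1) → P.kb := fun s => algebraMap P.kk P.kb (α0 s)
  have hα00 : algebraMap P.kb P.F (α 0) = P.evZ D := rfl
  have hα0s : ∀ s : Fin r, algebraMap P.kb P.F (α s.succ) = - P.evZ (N s) := fun s => rfl
  have hα0 : ∀ s, α s ≠ 0 := by
    intro s
    refine Fin.cases ?_ (fun s => ?_) s
    · intro h
      have h1 := congrArg (algebraMap P.kb P.F) h
      rw [hα00, map_zero] at h1
      exact P.evZ_ne_zero hDb hD0 h1
    · intro h
      have h1 := congrArg (algebraMap P.kb P.F) h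
      rw [hα0s, map_zero, neg_eq_zero] at h1
      exact P.evZ_ne_zero (hNb s) (hN0 s) h1
  have hαrel : ∀ i, ∑ s, algebraMap P.kb P.F (α s) * algebraMap P.kb P.F (w s i) = 0 := by
    intro i
    rw [Fin.sum_univ_succ, hα00, hw]
    have h1 : P.evZ D * P.evZ (fun j => V j 0 i) =
        ∑ s : Fin r, P.evZ (N s) * P.evZ (fun j => V j s.succ i) := by
      rw [← P.evZ_mul hDb (hB 0 i)]
      have h2 : (fun j => D j * V j 0 i) = fun j => ∑ s : Fin r, N s j * V j s.succ i := by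
        funext j
        exact hDN j i
      rw [h2]
      have h3 : ∀ s ∈ (Finset.univ : Finset (Fin r)),
          (fun j => ((N s j * V j s.succ i : ℤ) : ℂ)) ∈ P.O := fun s _ =>
        (hNb s).mul (hB s.succ i)
      have h4 := P.ev_sum Finset.univ (fun (s : Fin r) j => ((N s j * V j s.succ i : ℤ) : ℂ)) h3
      have h5 : P.evZ (fun j => ∑ s : Fin r, N s j * V j s.succ i) =
          P.ev (∑ s : Fin r, fun j => ((N s j * V j s.succ i : ℤ) : ℂ)) := by
        rw [Pkg.evZ]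
        congr 1
        funext j
        rw [Finset.sum_apply]
        push_cast
        rfl
      rw [h5, h4]
      refine Finset.sum_congr rfl fun s _ => ?_
      rw [← P.evZ_mul (hNb s) (hB s.succ i)]
      rfl
    rw [h1, ← Finset.sum_add_distrib]
    refine Finset.sum_eq_zero fun s _ => ?_
    rw [hα0s, hw]
    ring
  let y : Fin (r + 1) → P.F := fun s => ∑ i, algebraMap P.kb P.F (w s i) * P.cst (mu i)
  -- quadratic relations
  have hx : ∀ (s : Fin (r + 1)) (i : Fin 2), (fun j => (![lam0, ∑ k, (V j s k : ℂ) * mu k] :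
      Fin 2 → ℂ) i) ∈ P.O := by
    intro s i
    fin_cases i
    · exact P.const_mem lam0
    · have h1 : (fun j => ∑ k, (V j s k : ℂ) * mu k) =
          ∑ k, ((fun j => (V j s k : ℂ)) * (fun _ => mu k)) := by
        funext j
        rw [Finset.sum_apply]
        rfl
      change (fun j => ∑ k, (V j s k : ℂ) * mu k) ∈ P.O
      rw [h1]
      exact P.O.sum_mem fun k _ => P.O.mul_mem (hB s k) (P.const_mem (mu k))
  have hev : ∀ s : Fin (r + 1), (fun i => P.ev (fun j => (![lam0, ∑ k, (V j s k : ℂ) * mu k] :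
      Fin 2 → ℂ) i)) = ![P.cst lam0, y s] := by
    intro s
    funext i
    fin_cases i
    · rfl
    · have h1 : (fun j => ∑ k, (V j s k : ℂ) * mu k) =
          ∑ k, ((fun j => (V j s k : ℂ)) * (fun _ => mu k)) := by
        funext j
        rw [Finset.sum_apply]
        rfl
      change P.ev (fun j => ∑ k, (V j s k : ℂ) * mu k) = y s
      rw [h1, P.ev_sum _ _ (fun k _ => P.O.mul_mem (hB s k) (P.const_mem (mu k)))]
      refine Finset.sum_congr rfl fun k _ => ?_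
      rw [P.ev_mul (hB s k) (P.const_mem (mu k))]
      rfl
  have hrelQ : ∀ s : Fin (r + 1), ∃ Q' : MvPolynomial (Fin 2) P.kb, Q' ≠ 0 ∧
      Q'.totalDegree ≤ 2 ∧ MvPolynomial.aeval ![P.cst lam0, y s] Q' = 0 := by
    intro s
    rw [← hev s]
    exact Pool.Agent.H29.BF.seq_rel hEVP P 2 (Q s) (h0 s) (hd s) (hco s) _ (hx s) (hval s)
  refine hQADM P.kb P.F (P.cst lam0) (r + 1) y α hrelQ
    (fun s s' hss => pair_indep hli (w s) (w s') (hwp s s' hss)) (by omega) hα0 ?_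
  change ∑ s, algebraMap P.kb P.F (α s) * ∑ i, algebraMap P.kb P.F (w s i) * P.cst (mu i) = 0
  have h1 : ∑ s, algebraMap P.kb P.F (α s) * ∑ i, algebraMap P.kb P.F (w s i) * P.cst (mu i) =
      ∑ i, (∑ s, algebraMap P.kb P.F (α s) * algebraMap P.kb P.F (w s i)) * P.cst (mu i) := by
    simp only [Finset.mul_sum, Finset.sum_mul]
    rw [Finset.sum_comm]
    refine Finset.sum_congr rfl fun i _ => Finset.sum_congr rfl fun s _ => ?_
    ring
  rw [h1]
  refine Finset.sum_eq_zero fun i _ => ?_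
  rw [hαrel i, zero_mul]

theorem qmf (hBF : T_BF) (hPKG : T_PKG) (hBFF : T_BFF) (hEVP : T_EVP) (hMNR : T_MNR)
    (hQADM : T_QADM) : T_QMF := by
  classical
  intro M lam0 mu hli hl0 hmu
  by_contra hcon
  push Not at hcon
  -- circuits for all exponents
  have h1 : ∀ n : ℕ, ∃ r, r ≤ M ∧ 2 ≤ r ∧ Bad M lam0 mu ((n : ℝ) + 1) r := by
    intro n
    obtain ⟨H, hH2, hH⟩ := hcon ((n : ℝ) + 1) (by positivity)
    obtain ⟨r, hr2, hrM, a, v, hv, ha, hla, hlp, hc⟩ := circuit M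
      (Bset M lam0 mu ((n : ℝ) + 1) H) (fun v hv => hv.1) (by
        intro s a ha
        obtain ⟨v, hv0, hvH, hvi, Q, hQ0, hQd, hQc, hQv⟩ := hH s a ha
        exact ⟨v, ⟨hv0, hvH, Q, hQ0, hQd, hQc, hQv⟩, hvi⟩)
    exact ⟨r, hrM, hr2, H, hH2, a, v, hv, ha, hla, hlp, hc⟩
  have h2 : ∃ r, 2 ≤ r ∧ ∀ n : ℕ, Bad M lam0 mu ((n : ℝ) + 1) r := by
    by_contra hno
    push Not at hno
    have h3 : ∀ r, ∃ n : ℕ, 2 ≤ r → ¬ Bad M lam0 mu ((n : ℝ) + 1) r := by
      intro r
      by_cases hr : 2 ≤ r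
      · obtain ⟨n, hn⟩ := hno r hr
        exact ⟨n, fun _ => hn⟩
      · exact ⟨0, fun h => absurd h hr⟩
    choose f hf using h3
    obtain ⟨r, hrM, hr2, hB⟩ := h1 ((Finset.range (M + 1)).sup f)
    refine hf r hr2 (Bad_mono ?_ hB)
    have h4 : f r ≤ (Finset.range (M + 1)).sup f :=
      Finset.le_sup (f := f) (Finset.mem_range.2 (by omega))
    have h5 : (f r : ℝ) ≤ (((Finset.range (M + 1)).sup f : ℕ) : ℝ) := by exact_mod_cast h4
    linarith
  obtain ⟨r, hr2, hB⟩ := h2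
  choose H hH2 a v hv ha hla hlp hc using hB
  obtain ⟨P⟩ := hPKG H hH2
  have hal : ∀ i : Fin (M + 1),
      IsAlgebraic ℚ (Complex.exp ((Fin.cons lam0 mu : Fin (M + 1) → ℂ) i)) := by
    intro i
    refine Fin.cases ?_ (fun i => ?_) i
    · exact hl0
    · exact hmu i
  have hli3 := hBFF hBF (M + 1) (Fin.cons lam0 mu : Fin (M + 1) → ℂ) hli hal H P
  have e : (Fin.cons 1 (fun j => P.cst ((Fin.cons lam0 mu : Fin (M + 1) → ℂ) j)) :
      Fin (M + 2) → P.F) =
      (Fin.cons 1 (Fin.cons (P.cst lam0) (fun k => P.cst (mu k))) : Fin (M + 2) → P.F) := by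
    funext i
    refine Fin.cases ?_ (fun i => ?_) i
    · rfl
    · refine Fin.cases ?_ (fun i => ?_) i
      · rfl
      · rfl
  rw [e] at hli3
  let V : ℕ → Fin (r + 1) → Fin M → ℤ := fun j => Fin.cons (v j) (a j)
  have hV0 : ∀ j : ℕ, V j 0 = v j := fun j => rfl
  have hVs : ∀ (j : ℕ) (s : Fin r), V j s.succ = a j s := fun j s => rfl
  have hVB : ∀ (j : ℕ) s, V j s ∈ Bset M lam0 mu ((j : ℝ) + 1) (H j) := by
    intro j s
    refine Fin.cases ?_ (fun s => ?_) s
    · exact hv j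
    · exact ha j s
  have hsw : ∀ x y : Fin M → ℤ, LinearIndependent ℤ ![x, y] → LinearIndependent ℤ ![y, x] := by
    intro x y h
    have h1 := h.comp ![1, 0] (by decide)
    have h2 : ![x, y] ∘ ![1, 0] = ![y, x] := by
      funext i
      fin_cases i <;> rfl
    rw [h2] at h1
    exact h1
  choose Q hQ0 hQd hQc hQv using fun s (j : ℕ) => (hVB j s).2.2
  refine qmf_core hEVP hMNR hQADM P M lam0 mu hli3 r hr2 V (fun j s i => (hVB j s).2.1 i) ?_
    ?_ ?_ (fun s j => Q s j) (fun s j => hQ0 s j) (fun s j => hQd s j) (fun s j => hQc s j)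
    (fun s j => hQv s j)
  · intro j s s'
    refine Fin.cases ?_ (fun s => ?_) s
    · refine Fin.cases ?_ (fun s' => ?_) s'
      · intro h; exact absurd rfl h
      · intro _
        exact hsw _ _ (hlp j s')
    · refine Fin.cases ?_ (fun s' => ?_) s'
      · intro _
        exact hlp j s
      · intro hss
        have hne : s ≠ s' := fun h => hss (by rw [h])
        have h1 := (hla j).comp ![s, s'] (by
          intro x y hxy
          fin_cases x <;> fin_cases y <;> simp_all)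
        have h2 : (a j) ∘ ![s, s'] = ![V j s.succ, V j s'.succ] := by
          funext i
          fin_cases i <;> rfl
        rw [h2] at h1
        exact h1
  · intro j
    exact hla j
  · intro j
    exact hc j

end Pool.Agent.H69.BF
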