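import Pool.Agent.H72.BF.Targets3
import Pool.Agent.H84.BF.MNR

open Finset Filter

namespace Pool.Agent.H69.BF

open Pool.Agent.H72.BF

/-- integer and rational independence of integer vectors -/
lemma li_cast {r M : ℕ} (a : Fin r → Fin M → ℤ) :
    LinearIndependent ℤ a ↔ LinearIndependent ℚ (fun s i => (a s i : ℚ)) := by
  let f : (Fin M → ℤ) →ₗ[ℤ] (Fin M → ℚ) :=
    ((Int.castAddHom ℚ).toIntLinearMap).compLeft (Fin M)
  have hf : LinearMap.ker f = ⊥ := by
    rw [LinearMap.ker_eq_bot]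
    intro x y hxy
    funext i
    have h := congrFun hxy i
    exact Int.cast_injective (α := ℚ) h
  rw [← LinearIndependent.iff_fractionRing ℤ ℚ]
  exact (LinearMap.linearIndependent_iff f hf).symm

/-- coordinatewise cast -/
def castHom : (ℕ → ℤ) →+* (ℕ → ℂ) := (Int.castRingHom ℂ).compLeft ℕ

/-- bounded integer sequences as a ring -/
def BdR {H : ℕ → ℝ} (P : Pkg H) : Subring (ℕ → ℤ) := P.O.comap castHom

lemma mem_BdR {H : ℕ → ℝ} (P : Pkg H) (z : ℕ → ℤ) : z ∈ BdR P ↔ P.Bd z := Iff.rfl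

/-- evaluation at `j` -/
def evj {H : ℕ → ℝ} (P : Pkg H) (j : ℕ) : BdR P →+* ℤ :=
  (Pi.evalRingHom (fun _ : ℕ => ℤ) j).comp (BdR P).subtype

lemma rel_lift {H : ℕ → ℝ} (P : Pkg H) (r M : ℕ) (a : ℕ → Fin r → Fin M → ℤ)
    (v : ℕ → Fin M → ℤ) (hba : ∀ s i, P.Bd fun j => a j s i) (hbv : ∀ i, P.Bd fun j => v j i)
    (hli : ∀ j, LinearIndependent ℤ (a j))
    (hrel : ∀ j, ∃ c : Fin r → ℚ, (∀ i, c i ≠ 0) ∧ ∀ k, (v j k : ℚ) = ∑ i, c i * a j i k) :
    ∃ (D : ℕ → ℤ) (N : Fin r → ℕ → ℤ), P.Bd D ∧ (∀ i, P.Bd (N i)) ∧ (∀ j, D j ≠ 0) ∧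
      (∀ i j, N i j ≠ 0) ∧ ∀ j k, D j * v j k = ∑ i, N i j * a j i k := by
  classical
  let A : Matrix (Fin r) (Fin M) (BdR P) := Matrix.of fun s i => ⟨fun j => a j s i, hba s i⟩
  let u : Fin M → BdR P := fun i => ⟨fun j => v j i, hbv i⟩
  let G : Matrix (Fin r) (Fin r) (BdR P) := A * A.transpose
  let D : BdR P := G.det
  let N : Fin r → BdR P := Matrix.vecMul (Matrix.vecMul u A.transpose) G.adjugate
  have key : ∀ j, ∃ c : Fin r → ℚ, (∀ i, c i ≠ 0) ∧ (∀ k, (v j k : ℚ) = ∑ i, c i * a j i k) ∧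
      (((D : ℕ → ℤ) j : ℤ) : ℚ) ≠ 0 ∧
      ∀ i, (((N i : ℕ → ℤ) j : ℤ) : ℚ) = (((D : ℕ → ℤ) j : ℤ) : ℚ) * c i := by
    intro j
    obtain ⟨c, hc0, hc⟩ := hrel j
    refine ⟨c, hc0, hc, ?_⟩
    let f : BdR P →+* ℚ := (Int.castRingHom ℚ).comp (evj P j)
    let Aq : Matrix (Fin r) (Fin M) ℚ := Matrix.of fun s i => (a j s i : ℚ)
    have hA : A.map f = Aq := by
      ext s i
      rfl
    have hAT : A.transpose.map f = Aq.transpose := by
      ext s i
      rfl
    have hG : G.map f = Aq * Aq.transpose := by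
      change (A * A.transpose).map f = _
      rw [Matrix.map_mul, hA, hAT]
    have hD : (((D : ℕ → ℤ) j : ℤ) : ℚ) = (Aq * Aq.transpose).det := by
      have h1 : f D = (G.map f).det := RingHom.map_det f G
      rw [hG] at h1
      exact h1
    have hDne : (Aq * Aq.transpose).det ≠ 0 :=
      Pool.Agent.H84.BF.det_gram_ne_zero Aq ((li_cast (a j)).1 (hli j))
    refine ⟨by rw [hD]; exact hDne, ?_⟩
    have hu : (f ∘ u) = Matrix.vecMul c Aq := by
      funext k
      change (v j k : ℚ) = _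
      rw [hc k]
      rfl
    have hN : ∀ i, f (N i) = Matrix.vecMul (Matrix.vecMul (f ∘ u) Aq.transpose)
        (Aq * Aq.transpose).adjugate i := by
      intro i
      have h1 := RingHom.map_vecMul f G.adjugate (Matrix.vecMul u A.transpose) i
      have h2 : f ∘ (Matrix.vecMul u A.transpose) = Matrix.vecMul (f ∘ u) Aq.transpose := by
        funext k
        have h3 := RingHom.map_vecMul f A.transpose u k
        rw [hAT] at h3
        exact h3
      have h4 : G.adjugate.map f = (Aq * Aq.transpose).adjugate := by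
        have h5 := RingHom.map_adjugate f G
        rw [RingHom.mapMatrix_apply, RingHom.mapMatrix_apply, hG] at h5
        exact h5
      rw [h2, h4] at h1
      exact h1
    intro i
    have h6 : f (N i) = (Aq * Aq.transpose).det * c i := by
      rw [hN i, hu, Matrix.vecMul_vecMul, Matrix.vecMul_vecMul, ← Matrix.mul_assoc,
        Matrix.mul_adjugate, Matrix.vecMul_smul, Matrix.vecMul_one]
      rfl
    rw [hD]
    exact h6
  refine ⟨D, fun i => N i, D.2, fun i => (N i).2, ?_, ?_, ?_⟩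
  · intro j h
    obtain ⟨c, -, -, h1, -⟩ := key j
    exact h1 (by rw [h, Int.cast_zero])
  · intro i j h
    obtain ⟨c, h0, -, h1, h2⟩ := key j
    have h3 := h2 i
    have h' : (N i : ℕ → ℤ) j = 0 := h
    rw [h', Int.cast_zero] at h3
    rcases mul_eq_zero.1 h3.symm with h4 | h4
    · exact h1 h4
    · exact h0 i h4
  · intro j k
    obtain ⟨c, -, hc, -, h2⟩ := key j
    apply Int.cast_injective (α := ℚ)
    push_cast
    rw [hc k, Finset.mul_sum]
    refine Finset.sum_congr rfl fun i _ => ?_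
    rw [h2 i]
    ring

/-- a maximal independent family of bad vectors and one more bad vector form a circuit -/
lemma circuit (M : ℕ) (B : Set (Fin M → ℤ)) (hB0 : ∀ v ∈ B, v ≠ 0)
    (hbad : ∀ (s : ℕ) (a : Fin s → Fin M → ℤ), LinearIndependent ℤ a →
      ∃ v ∈ B, ∀ i, LinearIndependent ℤ ![a i, v]) :
    ∃ r : ℕ, 2 ≤ r ∧ r ≤ M ∧ ∃ (a : Fin r → Fin M → ℤ) (v : Fin M → ℤ), v ∈ B ∧
      (∀ i, a i ∈ B) ∧ LinearIndependent ℤ a ∧ (∀ i, LinearIndependent ℤ ![a i, v]) ∧
      ∃ c : Fin r → ℚ, (∀ i, c i ≠ 0) ∧ ∀ k, (v k : ℚ) = ∑ i, c i * a i k := by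
  classical
  let S : ℕ → Prop := fun s => ∃ a : Fin s → Fin M → ℤ, LinearIndependent ℤ a ∧ ∀ i, a i ∈ B
  have hS0 : S 0 := ⟨fun i => i.elim0, linearIndependent_empty_type, fun i => i.elim0⟩
  have hSM : ∀ s, S s → s ≤ M := by
    rintro s ⟨a, ha, -⟩
    have h := ((li_cast a).1 ha).fintype_card_le_finrank
    simpa using h
  have hmax : ∃ s, S s ∧ ¬ S (s + 1) := by
    by_contra hcon
    push Not at hcon
    have : ∀ s, S s := by
      intro s
      induction s with
      | zero => exact hS0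
      | succ n ih => exact hcon n ih
    have := hSM (M + 1) (this (M + 1))
    omega
  obtain ⟨s, ⟨a, ha, haB⟩, hs⟩ := hmax
  obtain ⟨v, hvB, hv⟩ := hbad s a ha
  have hdep : ¬ LinearIndependent ℤ (Fin.snoc a v : Fin (s + 1) → Fin M → ℤ) := by
    intro h
    refine hs ⟨Fin.snoc a v, h, ?_⟩
    intro i
    refine Fin.lastCases ?_ (fun i => ?_) i
    · rw [Fin.snoc_last]; exact hvB
    · rw [Fin.snoc_castSucc]; exact haB i
  rw [li_cast] at hdep
  have ha' := (li_cast a).1 ha
  have hsn : (fun (x : Fin (s + 1)) (i : Fin M) =>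
      (((Fin.snoc a v : Fin (s + 1) → Fin M → ℤ) x i : ℤ) : ℚ)) =
      (Fin.snoc (fun x i => (a x i : ℚ)) (fun i => (v i : ℚ)) : Fin (s + 1) → Fin M → ℚ) := by
    funext x
    refine Fin.lastCases ?_ (fun x => ?_) x
    · simp
    · simp
  rw [hsn, linearIndependent_finSnoc] at hdep
  have hspan : (fun i => (v i : ℚ)) ∈ Submodule.span ℚ (Set.range (fun x i => (a x i : ℚ))) := by
    by_contra h
    exact hdep ⟨ha', h⟩
  rw [Submodule.mem_span_range_iff_exists_fun] at hspan
  obtain ⟨c, hc⟩ := hspan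
  let T : Finset (Fin s) := Finset.univ.filter fun i => c i ≠ 0
  let e : Fin T.card ≃ T := T.equivFin.symm
  have hsum : ∀ k, (v k : ℚ) = ∑ i : Fin T.card, c (e i) * a (e i) k := by
    intro k
    have h1 := congrFun hc k
    rw [Finset.sum_apply] at h1
    rw [← h1, Equiv.sum_comp e (fun x : T => c x * (a x k : ℚ)), Finset.sum_coe_sort T
      (fun x => c x * (a x k : ℚ))]
    symm
    refine Finset.sum_subset (Finset.subset_univ T) ?_
    intro x _ hx
    have : c x = 0 := by
      by_contra h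
      exact hx (by simp [T, h])
    rw [this, zero_mul]
  have hce : ∀ i, c (e i) ≠ 0 := by
    intro i
    have := (e i).2
    simp only [T, Finset.mem_filter] at this
    exact this.2
  refine ⟨T.card, ?_, ?_, fun i => a (e i), v, hvB, fun i => haB _, ?_, fun i => hv _,
    fun i => c (e i), hce, hsum⟩
  · by_contra hlt
    have h2 : T.card = 0 ∨ T.card = 1 := by omega
    rcases h2 with h2 | h2
    · apply hB0 v hvB
      funext k
      have h3 := hsum k
      have : IsEmpty (Fin T.card) := by rw [h2]; infer_instance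
      rw [Finset.univ_eq_empty, Finset.sum_empty] at h3
      exact_mod_cast h3
    · obtain ⟨i0, hi0⟩ := Finset.card_eq_one.1 h2
      have h4 : ∀ k, (v k : ℚ) = c i0 * a i0 k := by
        intro k
        have h1 := congrFun hc k
        rw [Finset.sum_apply] at h1
        rw [← h1]
        refine (Finset.sum_eq_single i0 ?_ ?_)
        · intro x _ hx
          have : c x = 0 := by
            by_contra h
            have hxT : x ∈ T := by simp [T, h]
            rw [hi0, Finset.mem_singleton] at hxT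
            exact hx hxT
          simp [this]
        · intro h; exact absurd (Finset.mem_univ _) h
      have h5 := (li_cast _).1 (hv i0)
      rw [Fintype.linearIndependent_iff] at h5
      have h6 := h5 ![c i0, -1] (by
        funext k
        simp [Fin.sum_univ_two, h4 k]) 1
      simp at h6
  · have h7 := hSM s ⟨a, ha, haB⟩
    exact ((Finset.card_le_univ T).trans (by simp)).trans h7
  · exact ha.comp (fun i => ((e i : T) : Fin s)) (Subtype.val_injective.comp e.injective)

end Pool.Agent.H69.BF
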