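import Pool.Agent.H72.BF.Targets3

open Polynomial Finset Filter

namespace Pool.Agent.H69.BF

open Pool.Agent.H72.BF

theorem sqi : T_SQI := by
  intro L F _ _ _ _ ι _ s hq hs0 hind
  classical
  have : CharZero F := charZero_of_injective_algebraMap (algebraMap L F).injective
  let Ω := AlgebraicClosure F
  let E := algebraicClosure L Ω
  have : IsGalois L E := IsAlgClosure.isGalois L E
  let φ : F →+* Ω := algebraMap F Ω
  have hφ : Function.Injective φ := (algebraMap F Ω).injective
  have hφL : ∀ q : L, φ (algebraMap L F q) = algebraMap L Ω q := fun q =>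
    (IsScalarTower.algebraMap_apply L F Ω q).symm
  choose q hq using hq
  have hmem : ∀ i, φ (s i) ∈ E := by
    intro i
    refine (mem_algebraicClosure_iff (F := L) (E := Ω) (x := φ (s i))).2 ?_
    refine ⟨X ^ 2 - C (q i), (monic_X_pow_sub_C (q i) two_ne_zero).ne_zero, ?_⟩
    rw [map_sub, aeval_C, map_pow, aeval_X, ← map_pow, hq, hφL, sub_self]
  let t : ι → E := fun i => ⟨φ (s i), hmem i⟩
  have ht2 : ∀ i, t i ^ 2 = algebraMap L E (q i) := by
    intro i
    apply Subtype.ext
    change φ (s i) ^ 2 = algebraMap L Ω (q i)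
    rw [← map_pow, hq, hφL]
  have ht0 : ∀ i, t i ≠ 0 := by
    intro i h
    have h1 : φ (s i) = 0 := congrArg Subtype.val h
    exact hs0 i (hφ (by rw [h1, map_zero]))
  -- action
  have hact : ∀ (σ : E ≃ₐ[L] E) (i : ι), σ (t i) = t i ∨ σ (t i) = - t i := by
    intro σ i
    have h1 : (σ (t i)) ^ 2 = (t i) ^ 2 := by
      rw [← map_pow, ht2, AlgEquiv.commutes]
    exact sq_eq_sq_iff_eq_or_eq_neg.1 h1
  have hsep : ∀ i i', i ≠ i' → ∃ σ : E ≃ₐ[L] E, (σ (t i) = t i ∧ σ (t i') = - t i') ∨
      (σ (t i) = - t i ∧ σ (t i') = t i') := by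
    intro i i' hii
    by_contra hcon
    push Not at hcon
    have hfix : ∀ σ : E ≃ₐ[L] E, σ (t i' / t i) = t i' / t i := by
      intro σ
      rw [map_div₀]
      rcases hact σ i with h1 | h1 <;> rcases hact σ i' with h2 | h2
      · rw [h1, h2]
      · exact absurd h2 ((hcon σ).1 h1)
      · exact absurd h2 ((hcon σ).2 h1)
      · rw [h1, h2, neg_div_neg_eq]
    obtain ⟨v, hv⟩ := (InfiniteGalois.mem_range_algebraMap_iff_fixed (k := L) (K := E) (t i' / t i)).2 hfix
    refine hind i i' hii ⟨v, ?_⟩
    apply hφ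
    rw [map_mul, hφL]
    have h3 : t i' = algebraMap L E v * t i := by
      rw [hv, div_mul_cancel₀ _ (ht0 i)]
    exact congrArg Subtype.val h3
  have key : ∀ (n : ℕ) (T : Finset ι), T.card = n → ∀ b : ι → L,
      ∑ i ∈ T, algebraMap L E (b i) * t i = 0 → ∀ i ∈ T, b i = 0 := by
    intro n
    induction n using Nat.strong_induction_on with
    | _ n ih =>
    intro T hT b hb i hi
    by_cases hex : ∃ i' ∈ T, i' ≠ i
    · obtain ⟨i', hi', hne⟩ := hex
      obtain ⟨σ, hσ⟩ := hsep i i' hne.symm
      let ε : ι → L := fun k => if σ (t k) = t k then 1 else -1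
      have hε : ∀ k, σ (t k) = algebraMap L E (ε k) * t k := by
        intro k
        by_cases h : σ (t k) = t k
        · simp [ε, h]
        · rcases hact σ k with h1 | h1
          · exact absurd h1 h
          · simp only [ε, if_neg h, map_neg, map_one, neg_mul, one_mul, h1]
      have hne2 : ∀ k, t k ≠ - t k := by
        intro k hk
        exact ht0 k (self_eq_neg.1 hk)
      have hεsum : ε i' + ε i = 0 := by
        rcases hσ with ⟨h1, h2⟩ | ⟨h1, h2⟩
        · have h3 : ¬ (σ (t i') = t i') := by rw [h2]; exact fun h => hne2 i' h.symm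
          simp [ε, h1, h3]
        · have h3 : ¬ (σ (t i) = t i) := by rw [h1]; exact fun h => hne2 i h.symm
          simp [ε, h2, h3]
      have hεi : ε i ≠ 0 := by
        by_cases h : σ (t i) = t i <;> simp [ε, h]
      have h4 : ∑ k ∈ T, algebraMap L E ((ε k + ε i) * b k) * t k = 0 := by
        have h5 : σ (∑ i ∈ T, algebraMap L E (b i) * t i) = 0 := by rw [hb, map_zero]
        rw [map_sum] at h5
        have h6 : ∑ k ∈ T, algebraMap L E ((ε k + ε i) * b k) * t k =
            ∑ x ∈ T, σ (algebraMap L E (b x) * t x) +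
              algebraMap L E (ε i) * ∑ i ∈ T, algebraMap L E (b i) * t i := by
          rw [Finset.mul_sum, ← Finset.sum_add_distrib]
          refine Finset.sum_congr rfl fun k _ => ?_
          rw [map_mul σ, AlgEquiv.commutes, hε k, map_mul, map_add]
          ring
        rw [h6, h5, hb, mul_zero, add_zero]
      have h7 : ∑ k ∈ T.erase i', algebraMap L E ((ε k + ε i) * b k) * t k = 0 := by
        rw [← Finset.add_sum_erase T _ hi'] at h4
        rw [hεsum, zero_mul, map_zero, zero_mul, zero_add] at h4
        exact h4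
      have h8 := ih (T.erase i').card (by rw [← hT]; exact Finset.card_erase_lt_of_mem hi')
        (T.erase i') rfl (fun k => (ε k + ε i) * b k) h7 i (Finset.mem_erase.2 ⟨hne.symm, hi⟩)
      have h9 : (ε i + ε i) * b i = 0 := h8
      rcases mul_eq_zero.1 h9 with h | h
      · exfalso
        rw [← two_mul] at h
        rcases mul_eq_zero.1 h with h | h
        · exact two_ne_zero h
        · exact hεi h
      · exact h
    · push Not at hex
      have hTi : T = {i} := by
        ext k
        simp only [Finset.mem_singleton]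
        exact ⟨fun h => hex k h, fun h => h ▸ hi⟩
      rw [hTi, Finset.sum_singleton] at hb
      rcases mul_eq_zero.1 hb with h | h
      · exact (map_eq_zero _).1 h
      · exact absurd h (ht0 i)
  rw [Fintype.linearIndependent_iff]
  intro g hg i
  refine key _ Finset.univ rfl g ?_ i (Finset.mem_univ i)
  apply Subtype.ext
  have h1 : φ (∑ i, g i • s i) = 0 := by rw [hg, map_zero]
  rw [map_sum] at h1
  rw [AddSubmonoidClass.coe_finsetSum]
  rw [ZeroMemClass.coe_zero, ← h1]
  refine Finset.sum_congr rfl fun k _ => ?_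
  rw [Algebra.smul_def, map_mul, hφL]
  rfl

end Pool.Agent.H69.BF
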